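import Pool.Agent.Q216.WL.Logic
import Pool.Agent.Q216.WL.Aut
import Pool.Agent.Q216.WL.Neg
import Pool.Agent.Q216.WL.Grp

set_option autoImplicit false

/-!
MP_99407b_lc, Q1: the class `C_u` of the lattices isomorphic to `Id_c G`, `G` an Archimedean
`ℓ`-group with order-unit, is not the class of the models of a sentence of `L_{∞∞}`. For each set
`V` of variables there are a lattice `N` in `C_u` and a lattice `M` which is not isomorphic to
`Id_c G` for any Abelian `ℓ`-group `G` with order-unit, such that the same sentences of `L_{∞∞}` with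
variables from `V` hold in `N` and in `M`.
-/

namespace Pool.Agent.Results.MP_99407b_lc.NotAxiomatizable

open Cardinal Pool.Agent.Q216.WL

universe u

theorem exists_pair (V : Type u) : ∃ (N M : Type u) (_ : Lattice N) (_ : Lattice M),
    Nonempty N ∧ Nonempty M ∧ InCu N ∧ ¬ InAu M ∧
      ∀ φ : Fm V, φ.IsSentence → (Models N φ ↔ Models M φ) := by
  let ν : Cardinal.{u} := max ℵ₀ #V
  have hν : ℵ₀ ≤ ν := le_max_left _ _
  have hV : #V ≤ ν := le_max_right _ _
  have : Fact (ℵ₀ ≤ ν) := ⟨hν⟩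
  let κ : Type u := (Order.succ ν).ord.ToType
  have hκ : #κ = Order.succ ν := mk_ord_toType _
  have hκν : ν < #κ := by
    rw [hκ]
    exact Order.lt_succ ν
  have hI : ∀ δ : κ, #(Set.Iio δ) ≤ ν := fun δ => Order.lt_succ_iff.1 (mk_Iio_toType_ord_lt δ)
  have hb : ∀ S : Set κ, #S ≤ ν → ∃ δ, S ⊆ Set.Iio δ := by
    intro S hS
    by_contra h
    push Not at h
    have h1 : (Set.univ : Set κ) ⊆ ⋃ a : S, (Set.Iio (a : κ) ∪ {(a : κ)}) := by
      intro δ _
      obtain ⟨a, ha, ha'⟩ := Set.not_subset.1 (h δ)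
      refine Set.mem_iUnion.2 ⟨⟨a, ha⟩, ?_⟩
      rcases (not_lt.1 (show ¬ a < δ from ha')).lt_or_eq with h2 | h2
      · exact Or.inl h2
      · exact Or.inr h2
    have h2 : #(⋃ a : S, (Set.Iio (a : κ) ∪ {(a : κ)}) : Set κ) ≤ ν :=
      small_iUnion hν hS fun a => small_union hν (hI a) (small_singleton hν _)
    have h3 := (mk_le_mk_of_subset h1).trans h2
    rw [mk_univ] at h3
    exact absurd h3 hκν.not_ge
  have hμ : #κ < #(κ ⊕ Set κ) := by
    refine (cantor #κ).trans_le ?_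
    rw [← mk_set]
    exact mk_le_of_injective Sum.inr_injective
  have hA : ν < #(Set.range (Sum.inl : κ → κ ⊕ Set κ)) := by
    rw [mk_range_eq _ Sum.inl_injective]
    exact hκν
  have hne : Nonempty (FLat ν κ (Set.range (Sum.inl : κ → κ ⊕ Set κ))) := by
    have w : Fam ν κ (Set.range (Sum.inl : κ → κ ⊕ Set κ)) := ⟨_, isFam_const ν κ _ (le_refl (0 : ℝ))⟩
    exact ⟨FLat.mk w⟩
  refine ⟨FLat ν κ (Set.range (Sum.inl : κ → κ ⊕ Set κ)), FLat ν κ (Set.univ : Set (κ ⊕ Set κ)),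
    inferInstance, inferInstance, hne, hne.map (inc _), inCu hI hb, not_inAu hκν hμ,
    fun φ hφ => ?_⟩
  exact Fm.models_iff (inc _) (inc_injective _) (crit hV _ hA) φ hφ

theorem InCu.inAu {L : Type u} [Lattice L] (h : InCu L) : InAu L := by
  obtain ⟨G, i1, i2, i3, -, h2, h3⟩ := h
  exact ⟨G, i1, i2, i3, h2, h3⟩

theorem result :
    (∀ V : Type u, ∃ (N M : Type u) (_ : Lattice N) (_ : Lattice M),
      Nonempty N ∧ Nonempty M ∧ InCu N ∧ ¬ InAu M ∧
        ∀ φ : Fm V, φ.IsSentence → (Models N φ ↔ Models M φ)) ∧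
    ∀ (V : Type u) (φ : Fm V), φ.IsSentence →
      ∃ (L : Type u) (_ : Lattice L), Nonempty L ∧ ¬ (Models L φ ↔ InCu L) := by
  refine ⟨exists_pair, fun V φ hφ => ?_⟩
  obtain ⟨N, M, _, _, hN, hM, h1, h2, h3⟩ := exists_pair V
  by_contra h
  push Not at h
  have h4 := (h N inferInstance hN).2 h1
  have h5 := (h3 φ hφ).1 h4
  have h6 := (h M inferInstance hM).1 h5
  exact h2 (InCu.inAu h6)

end Pool.Agent.Results.MP_99407b_lc.NotAxiomatizable
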